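import Pool.Agent.Q196.FriQri

/-!
# A bounded closed convex set in a Hilbert space with `qri` nonempty and `fri` empty

The space is `ℓ²(ℝ × ℕ)`; the set consists of the vectors of the unit ball each of whose blocks
`(x (γ, n))_n` lies in the ellipsoid `∑ n, (4 ^ n * x n - 2 ^ (-n)) ^ 2 ≤ 4 / 3`, which has `0` on
its boundary.  The cone generated by the ellipsoid is dense, but `0` is an extreme point of it.
So `0` is in the quasi-relative interior of the set.  Every vector has countable support, hence
vanishes on some block `γ`, and then its minimal face lies in the closed face of the vectors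
vanishing on the block `γ`.
-/

namespace Pool.Agent.Results.MP_98aad6_an.FriEmptyQriNonempty

open Pool.Agent.Q196.FriQri

theorem result :
    ∃ (H : Type) (_ : NormedAddCommGroup H) (_ : InnerProductSpace ℝ H) (_ : CompleteSpace H)
      (C : Set H), Convex ℝ C ∧ IsClosed C ∧ Bornology.IsBounded C ∧
        (qri C).Nonempty ∧ fri C = ∅ := by
  refine ⟨H, inferInstance, inferInstance, inferInstance, C, convex_C, isClosed_C, ?_,
    ⟨0, zero_mem_qri⟩, fri_C⟩
  refine (Metric.isBounded_closedBall (x := (0 : H)) (r := 1)).subset (fun x hx => ?_)
  rw [mem_closedBall_zero_iff]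
  exact hx.1

end Pool.Agent.Results.MP_98aad6_an.FriEmptyQriNonempty
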